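import Pool.Agent.H578R3.SgnCyc

open CategoryTheory AlgebraicGeometry

universe u v

open Pool.Agent.H914 Pool.Agent.H914.VarClass Pool.Agent.H914.VarClass.Obj Pool.Agent.H447
  Pool.Agent.H578R3.Sgn

/-- **One cycle decides the sign conjecture for all cohomology theories.** Let `X` be a smooth
proper variety of dimension `n` over an algebraically closed field. Call a cycle `z` of codimension
`n` on `X × X` with rational coefficients a numerical projector if `z ∘ z` is numerically
equivalent to `z`. Assume that there is at least one Weil cohomology theory. Then the intersection
numbers of the numerical projectors with the diagonal have a largest value `β`, and there is a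
cycle `P` of codimension `n` on `X × X` such that for every Weil cohomology theory `W` the number
`β` is at most the sum `b` of the even Betti numbers of `X` for `W`, and the following are
equivalent: the sign conjecture `C⁺` holds for `X` and `W`, that is, some cycle (which may depend
on `W`) induces the projector onto the even cohomology; the cycle `P` induces this projector;
`b = β`. In particular, for two theories giving the same `b` the conjectures `C⁺` for `X` are
equivalent to each other, and if they hold the same cycle `P` serves for both. -/
theorem Pool.Agent.Results.MP_fd35e1_ag.UniversalEvenCycle.result {k : Type u} [Field k]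
    [IsAlgClosed k] {𝒱 : VarClass k} {ops : CycleOps 𝒱} (X : 𝒱.Obj)
    (W₀ : WeilCohomology.{u, v} ops) :
    ∃ P, (X.prod X).IsCyc X.dim P ∧ ∃ β : ℚ,
      IsGreatest {d | ∃ z, NumProjector ops X z ∧ diagNumber ops X z = d} β ∧
      ∀ W : WeilCohomology.{u, v} ops, β ≤ evenBetti W X ∧
        List.TFAE [SignStd W X, InducesEven W X P, (evenBetti W X : ℚ) = β] :=
  sign_universal X W₀
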